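import Mathlib

set_option autoImplicit false

namespace Pool.Agent.C33

open Finset

section field

variable {p : ℕ} [Fact p.Prime] {F : Type*} [Field F] [Algebra (ZMod p) F] [CharP F p]

/-- elements fixed by Frobenius come from the prime field -/
lemma exists_of_pow_eq {w : F} (hw : w ^ p = w) : ∃ c : ZMod p, algebraMap (ZMod p) F c = w := by
  have h1 := (Subfield.mem_bot_iff_pow_eq_self F p).2 hw
  rw [← ZMod.fieldRange_castHom_eq_bot p] at h1
  obtain ⟨c, hc⟩ := h1
  refine ⟨c, ?_⟩
  rw [← hc]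
  congr 1
  exact Subsingleton.elim _ _

omit [CharP F p] in
lemma algebraMap_pow (c : ZMod p) : (algebraMap (ZMod p) F c) ^ p = algebraMap (ZMod p) F c := by
  rw [← map_pow, ZMod.pow_card]

omit [Algebra (ZMod p) F] in
lemma lemA {w : F} (hN : (w * w ^ (p ^ 2)) ^ p = w * w ^ (p ^ 2))
    (hs : (w + w ^ (p ^ 2)) ^ p = w + w ^ (p ^ 2)) : w ^ p = w := by
  have h1 : (w ^ p - w) * (w ^ p - w ^ (p ^ 2)) = 0 := by
    have e0 : w ^ 2 + w * w ^ (p ^ 2) = (w + w ^ (p ^ 2)) * w := by ring
    have e1 : (w ^ 2 + w * w ^ (p ^ 2)) ^ p = ((w + w ^ (p ^ 2)) * w) ^ p := by rw [e0]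
    rw [add_pow_char, mul_pow (w + w ^ (p ^ 2)), hs, hN] at e1
    have e2 : (w ^ 2) ^ p = (w ^ p) ^ 2 := by rw [← pow_mul, ← pow_mul, mul_comm]
    rw [e2] at e1
    linear_combination e1
  rcases mul_eq_zero.1 h1 with h | h
  · exact sub_eq_zero.1 h
  · have h2 : w ^ p = (w ^ p) ^ p := by
      rw [← pow_mul, ← sq]
      exact sub_eq_zero.1 h
    exact (frobenius_inj F p (by rw [frobenius_def, frobenius_def]; exact h2)).symm

/-- no three points of the cone on an affine line off the origin -/
lemma lemB {x y : F} (hx0 : x ≠ 0) (hy0 : y ≠ 0) (t : ZMod p) (ht0 : t ≠ 0) (ht1 : t ≠ 1)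
    (hx : (x * x ^ (p ^ 2)) ^ p = x * x ^ (p ^ 2))
    (hy : (y * y ^ (p ^ 2)) ^ p = y * y ^ (p ^ 2))
    (hz : (((1 - algebraMap (ZMod p) F t) * x + algebraMap (ZMod p) F t * y) *
      ((1 - algebraMap (ZMod p) F t) * x + algebraMap (ZMod p) F t * y) ^ (p ^ 2)) ^ p =
      ((1 - algebraMap (ZMod p) F t) * x + algebraMap (ZMod p) F t * y) *
      ((1 - algebraMap (ZMod p) F t) * x + algebraMap (ZMod p) F t * y) ^ (p ^ 2)) :
    ∃ c : ZMod p, y = algebraMap (ZMod p) F c * x := by
  set T : F := algebraMap (ZMod p) F t with hT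
  have hTp : T ^ p = T := algebraMap_pow t
  have hTp2 : T ^ (p ^ 2) = T := by rw [sq, pow_mul, hTp, hTp]
  have hT0 : T ≠ 0 := by
    rw [hT]; intro h; exact ht0 ((map_eq_zero _).1 h)
  have hT1 : 1 - T ≠ 0 := by
    rw [hT]; intro h
    apply ht1
    have : algebraMap (ZMod p) F t = algebraMap (ZMod p) F 1 := by
      rw [map_one]; exact (sub_eq_zero.1 h).symm
    exact (algebraMap (ZMod p) F).injective this
  set Nx := x * x ^ (p ^ 2) with hNx
  set Ny := y * y ^ (p ^ 2) with hNy
  set B := x * y ^ (p ^ 2) + y * x ^ (p ^ 2) with hB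
  have hexp : ((1 - T) * x + T * y) * ((1 - T) * x + T * y) ^ (p ^ 2) =
      (1 - T) ^ 2 * Nx + T ^ 2 * Ny + T * (1 - T) * B := by
    have e1 : ((1 - T) * x + T * y) ^ (p ^ 2) = (1 - T) * x ^ (p ^ 2) + T * y ^ (p ^ 2) := by
      rw [add_pow_char_pow, mul_pow, mul_pow, sub_pow_char_pow, one_pow, hTp2]
    rw [e1, hNx, hNy, hB]
    ring
  rw [hexp] at hz
  have hfrob : ∀ a b : F, (a + b) ^ p = a ^ p + b ^ p := fun a b => add_pow_char a b p
  have h1T : (1 - T) ^ p = 1 - T := by rw [sub_pow_char, one_pow, hTp]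
  have hL : ((1 - T) ^ 2 * Nx + T ^ 2 * Ny + T * (1 - T) * B) ^ p =
      (1 - T) ^ 2 * Nx + T ^ 2 * Ny + T * (1 - T) * B ^ p := by
    rw [hfrob, hfrob]
    have a1 : ((1 - T) ^ 2 * Nx) ^ p = (1 - T) ^ 2 * Nx := by
      rw [mul_pow, hx, ← pow_mul, mul_comm 2 p, pow_mul, h1T]
    have a2 : (T ^ 2 * Ny) ^ p = T ^ 2 * Ny := by
      rw [mul_pow, hy, ← pow_mul, mul_comm 2 p, pow_mul, hTp]
    have a3 : (T * (1 - T) * B) ^ p = T * (1 - T) * B ^ p := by
      rw [mul_pow, mul_pow T, h1T, hTp]
    rw [a1, a2, a3]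
  rw [hL] at hz
  have hBp : B ^ p = B := by
    have h2 : T * (1 - T) * (B ^ p - B) = 0 := by linear_combination hz
    rcases mul_eq_zero.1 h2 with h | h
    · exact absurd h (mul_ne_zero hT0 hT1)
    · exact sub_eq_zero.1 h
  have hNx0 : Nx ≠ 0 := mul_ne_zero hx0 (pow_ne_zero _ hx0)
  have hw : (y / x) ^ p = y / x := by
    apply lemA
    · have e : y / x * (y / x) ^ (p ^ 2) = Ny / Nx := by
        rw [div_pow, hNx, hNy, div_mul_div_comm]
      rw [e, div_pow, hx, hy]
    · have e : y / x + (y / x) ^ (p ^ 2) = B / Nx := by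
        rw [div_pow, hNx, hB]
        have : x ^ (p ^ 2) ≠ 0 := pow_ne_zero _ hx0
        field_simp
        ring
      rw [e, div_pow, hx, hBp]
  obtain ⟨c, hc⟩ := exists_of_pow_eq hw
  exact ⟨c, by rw [hc]; field_simp⟩

/-- three distinct points of the cone on a common affine hyperplane are independent -/
lemma lemC (ℓ : F →ₗ[ZMod p] ZMod p) (x : Fin 3 → F) (hinj : Function.Injective x)
    (hx : ∀ i, (x i * x i ^ (p ^ 2)) ^ p = x i * x i ^ (p ^ 2)) (hℓ : ∀ i, ℓ (x i) = 1) :
    LinearIndependent (ZMod p) x := by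
  have hx0 : ∀ i, x i ≠ 0 := by
    intro i h
    have := hℓ i
    rw [h, map_zero] at this
    exact zero_ne_one this
  -- key: relation with a nonzero coefficient at `k` is impossible
  have key : ∀ (i j k : Fin 3), i ≠ j → j ≠ k → i ≠ k → ∀ a b : ZMod p,
      x k = a • x i + b • x j → False := by
    intro i j k hij hjk hik a b h
    have hsum : a + b = 1 := by
      have := congrArg ℓ h
      rw [map_add, map_smul, map_smul, hℓ, hℓ, hℓ] at this
      simpa using this.symm
    have ha : a = 1 - b := by linear_combination hsum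
    by_cases hb0 : b = 0
    · subst hb0
      rw [ha] at h
      simp only [sub_zero, one_smul, zero_smul, add_zero] at h
      exact hik (hinj h.symm)
    by_cases hb1 : b = 1
    · subst hb1
      rw [ha] at h
      simp only [sub_self, zero_smul, one_smul, zero_add] at h
      exact hjk (hinj h.symm)
    rw [ha, Algebra.smul_def, Algebra.smul_def, map_sub, map_one] at h
    obtain ⟨c, hc⟩ := lemB (hx0 i) (hx0 j) b hb0 hb1 (hx i) (hx j) (by rw [← h]; exact hx k)
    have h2 := congrArg ℓ hc
    rw [← Algebra.smul_def, map_smul, hℓ, hℓ, smul_eq_mul, mul_one] at h2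
    rw [← h2, map_one, one_mul] at hc
    exact hij (hinj hc.symm)
  rw [Fintype.linearIndependent_iff]
  intro g hg
  rw [Fin.sum_univ_three] at hg
  have hgs : g 0 + g 1 + g 2 = 0 := by
    have := congrArg ℓ hg
    rw [map_add, map_add, map_smul, map_smul, map_smul, hℓ, hℓ, hℓ, map_zero] at this
    simpa using this
  have h2 : g 2 = 0 := by
    by_contra h
    refine key 0 1 2 (by decide) (by decide) (by decide) (-(g 0 / g 2)) (-(g 1 / g 2)) ?_
    have : (g 2)⁻¹ • (g 0 • x 0 + g 1 • x 1 + g 2 • x 2) = 0 := by rw [hg, smul_zero]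
    rw [smul_add, smul_add, smul_smul, smul_smul, smul_smul, inv_mul_cancel₀ h, one_smul] at this
    rw [neg_smul, neg_smul, div_eq_inv_mul, div_eq_inv_mul]
    linear_combination (exp := 1) this
  rw [h2] at hg hgs
  have h01 : g 1 = - g 0 := by linear_combination hgs
  rw [h01] at hg
  have h0 : g 0 = 0 := by
    by_contra h
    have : g 0 • (x 0 - x 1) = 0 := by
      rw [smul_sub]
      rw [neg_smul, zero_smul, add_zero, ← sub_eq_add_neg] at hg
      exact hg
    rcases smul_eq_zero.1 this with h' | h'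
    · exact h h'
    · have := hinj (sub_eq_zero.1 h')
      exact absurd this (by decide)
  have h1 : g 1 = 0 := by rw [h01, h0, neg_zero]
  intro i
  fin_cases i
  · exact h0
  · exact h1
  · exact h2

/-- The main incidence lemma: no `3 × 3` grid of products in the section of the cone. -/
lemma lemD [FiniteDimensional (ZMod p) F] [Algebra.IsSeparable (ZMod p) F]
    (hF : Module.finrank (ZMod p) F = 4) (β : F)
    (x κ : Fin 3 → F) (hxinj : Function.Injective x) (hκinj : Function.Injective κ)
    (hx : ∀ i, (x i * x i ^ (p ^ 2)) ^ p = x i * x i ^ (p ^ 2))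
    (hκ : ∀ i, (κ i * κ i ^ (p ^ 2)) ^ p = κ i * κ i ^ (p ^ 2))
    (htr : ∀ i j, Algebra.trace (ZMod p) F (β * (x i * κ j)) = 1) : False := by
  have hβ : β ≠ 0 := by
    intro h
    have := htr 0 0
    rw [h, zero_mul, map_zero] at this
    exact zero_ne_one this
  have hxli : LinearIndependent (ZMod p) x := by
    refine lemC ((Algebra.trace (ZMod p) F).comp (LinearMap.mulRight (ZMod p) (β * κ 0))) x hxinj
      hx (fun i => ?_)
    rw [LinearMap.comp_apply, LinearMap.mulRight_apply, ← htr i 0]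
    congr 1; ring
  have hκli : LinearIndependent (ZMod p) κ := by
    refine lemC ((Algebra.trace (ZMod p) F).comp (LinearMap.mulRight (ZMod p) (β * x 0))) κ hκinj
      hκ (fun i => ?_)
    rw [LinearMap.comp_apply, LinearMap.mulRight_apply, ← htr 0 i]
    congr 1; ring
  set x' : Fin 3 → F := fun i => β * x i with hx'
  have hx'li : LinearIndependent (ZMod p) x' := by
    have := hxli.map' (LinearMap.mulLeft (ZMod p) β)
      (LinearMap.ker_eq_bot.2 (mul_right_injective₀ hβ))
    exact this
  set U := Submodule.span (ZMod p) (Set.range x') with hU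
  have hUrank : Module.finrank (ZMod p) U = 3 := by
    rw [hU, finrank_span_eq_card hx'li, Fintype.card_fin]
  set v : Fin 2 → F := ![κ 1 - κ 0, κ 2 - κ 0] with hv
  have hvli : LinearIndependent (ZMod p) v := by
    rw [Fintype.linearIndependent_iff] at hκli ⊢
    intro g hg
    rw [Fin.sum_univ_two] at hg
    have h3 := hκli ![-(g 0 + g 1), g 0, g 1] (by
      rw [Fin.sum_univ_three]
      simp only [hv, Matrix.cons_val_zero, Matrix.cons_val_one, Matrix.cons_val] at hg ⊢
      rw [← hg]
      simp only [smul_sub, neg_smul, add_smul]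
      ring)
    intro i
    fin_cases i
    · exact h3 1
    · exact h3 2
  set V := Submodule.span (ZMod p) (Set.range v) with hV
  have hVrank : Module.finrank (ZMod p) V = 2 := by
    rw [hV, finrank_span_eq_card hvli, Fintype.card_fin]
  have hVU : V ≤ (Algebra.traceForm (ZMod p) F).orthogonal U := by
    rw [hV, Submodule.span_le]
    rintro _ ⟨j, rfl⟩
    rw [SetLike.mem_coe, LinearMap.BilinForm.mem_orthogonal_iff]
    intro u hu
    rw [hU] at hu
    induction hu using Submodule.span_induction with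
    | mem u hu =>
      obtain ⟨i, rfl⟩ := hu
      rw [Algebra.traceForm_apply]
      fin_cases j
      · simp only [hv, hx', Fin.zero_eta, Matrix.cons_val_zero]
        rw [show β * x i * (κ 1 - κ 0) = β * (x i * κ 1) - β * (x i * κ 0) by ring, map_sub,
          htr, htr, sub_self]
      · simp only [hv, hx', Fin.mk_one, Matrix.cons_val_one, Matrix.cons_val_fin_one]
        rw [show β * x i * (κ 2 - κ 0) = β * (x i * κ 2) - β * (x i * κ 0) by ring, map_sub,
          htr, htr, sub_self]
    | zero => simp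
    | add a b _ _ ha hb => rw [map_add, LinearMap.add_apply, ha, hb, add_zero]
    | smul c a _ ha => rw [map_smul, LinearMap.smul_apply, ha, smul_zero]
  have h1 := Submodule.finrank_mono hVU
  rw [LinearMap.BilinForm.finrank_orthogonal (traceForm_nondegenerate (ZMod p) F), hF, hUrank,
    hVrank] at h1
  omega

end field

end Pool.Agent.C33
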