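import Pool.Agent.C33.Defs
import Pool.Agent.C33.Field

set_option autoImplicit false

namespace Pool.Agent.C33

open Finset

/-- number of elements of trace one -/
lemma card_trace_one {p : ℕ} [Fact p.Prime] {F : Type*} [Field F] [Fintype F] [DecidableEq F]
    [Algebra (ZMod p) F] [FiniteDimensional (ZMod p) F] [Algebra.IsSeparable (ZMod p) F] :
    p * (Finset.univ.filter (fun γ : F => Algebra.trace (ZMod p) F γ = 1)).card =
      Fintype.card F := by
  classical
  have hsurj := Algebra.trace_surjective (ZMod p) F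
  have h1 : ∀ c : ZMod p, (Finset.univ.filter (fun γ : F => Algebra.trace (ZMod p) F γ = c)).card =
      (Finset.univ.filter (fun γ : F => Algebra.trace (ZMod p) F γ = 1)).card := by
    intro c
    exact AddMonoidHom.card_fiber_eq_of_mem_range (Algebra.trace (ZMod p) F) (hsurj c) (hsurj 1)
  have h2 : Fintype.card F = ∑ c : ZMod p,
      (Finset.univ.filter (fun γ : F => Algebra.trace (ZMod p) F γ = c)).card := by
    rw [← Finset.card_univ]
    exact Finset.card_eq_sum_card_fiberwise (fun x _ => by simp)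
  rw [h2, Finset.sum_congr rfl (fun c _ => h1 c), Finset.sum_const, Finset.card_univ, ZMod.card,
    smul_eq_mul]

/-- For a prime `p` there is a `C_3[3]`-set in `{1, ..., (p^2+1)(p-1)}` with at least
`(p^2+1)(p-1)/p` elements. -/
theorem construction (p : ℕ) (hp : p.Prime) :
    ∃ A : Finset ℤ, A ⊆ Finset.Icc 1 (((p ^ 2 + 1) * (p - 1) : ℕ) : ℤ) ∧ IsC 3 3 A ∧
      (p ^ 2 + 1) * (p - 1) ≤ p * A.card := by
  classical
  have : Fact p.Prime := ⟨hp⟩
  set E := GaloisField p 4 with hE
  have : Fintype E := Fintype.ofFinite E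
  have hcardE : Fintype.card E = p ^ 4 := by
    rw [← Nat.card_eq_fintype_card]
    exact GaloisField.card p 4 (by norm_num)
  have hfin : Module.finrank (ZMod p) E = 4 := GaloisField.finrank p (by norm_num)
  set N := (p ^ 2 + 1) * (p - 1) with hN
  have hp1 : 1 < p := hp.one_lt
  have hp0 : 0 < p := hp.pos
  have hNpos : 0 < N := Nat.mul_pos (by positivity) (by omega)
  have hfac : p ^ 4 - 1 = (p + 1) * N := by
    obtain ⟨k, rfl⟩ : ∃ k, p = k + 1 := ⟨p - 1, by omega⟩
    rw [hN]
    simp only [Nat.add_sub_cancel]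
    have : (k + 1) ^ 4 = (k + 1 + 1) * (((k + 1) ^ 2 + 1) * k) + 1 := by ring
    omega
  obtain ⟨g, hg⟩ := IsCyclic.exists_ofOrder_eq_natCard (α := Eˣ)
  have hgord : orderOf g = (p + 1) * N := by
    rw [hg, Nat.card_units, Nat.card_eq_fintype_card, hcardE, hfac]
  set θ : Eˣ := g ^ (p + 1) with hθ
  have hθord : orderOf θ = N := by
    rw [hθ, orderOf_pow_of_dvd (by omega) (by rw [hgord]; exact Dvd.intro _ rfl), hgord]
    exact Nat.mul_div_cancel_left _ (by omega)
  -- the sections
  set S : E → Finset ℕ := fun β =>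
    (Finset.range N).filter (fun i => Algebra.trace (ZMod p) E (β * ((θ ^ i : Eˣ) : E)) = 1) with hS
  set t := (Finset.univ.filter (fun γ : E => Algebra.trace (ZMod p) E γ = 1)).card with ht
  have htcard : p * t = p ^ 4 := by rw [ht, card_trace_one, hcardE]
  have hsum : ∑ β : E, (S β).card = N * t := by
    have h1 : ∀ β : E, (S β).card = ∑ i ∈ Finset.range N,
        if Algebra.trace (ZMod p) E (β * ((θ ^ i : Eˣ) : E)) = 1 then 1 else 0 := by
      intro β
      rw [hS, ← Finset.card_filter]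
    rw [Finset.sum_congr rfl (fun β _ => h1 β), Finset.sum_comm]
    rw [Finset.sum_congr rfl (g := fun _ => t)]
    · rw [Finset.sum_const, Finset.card_range, smul_eq_mul]
    · intro i _
      rw [← Finset.card_filter, ht]
      apply Finset.card_bij (fun β _ => β * ((θ ^ i : Eˣ) : E))
      · intro β hβ
        simpa using hβ
      · intro a _ b _ hab
        exact mul_right_cancel₀ (Units.ne_zero _) hab
      · intro b hb
        refine ⟨b * (((θ ^ i)⁻¹ : Eˣ) : E), ?_, ?_⟩
        · simp only [Finset.mem_filter, Finset.mem_univ, true_and] at hb ⊢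
          rw [mul_assoc, Units.inv_mul, mul_one]
          exact hb
        · rw [mul_assoc, Units.inv_mul, mul_one]
  obtain ⟨β, hβ⟩ : ∃ β : E, N ≤ p * (S β).card := by
    by_contra hcon
    push Not at hcon
    have h1 : ∑ β : E, p * (S β).card < ∑ β : E, N :=
      Finset.sum_lt_sum_of_nonempty ⟨0, Finset.mem_univ _⟩ (fun β _ => hcon β)
    rw [← Finset.mul_sum, hsum, Finset.sum_const, Finset.card_univ, hcardE, smul_eq_mul] at h1
    have h2 : p * (N * t) = p ^ 4 * N := by rw [← htcard]; ring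
    omega
  refine ⟨(S β).image (fun i : ℕ => (i : ℤ) + 1), ?_, ?_, ?_⟩
  · intro a ha
    rw [Finset.mem_image] at ha
    obtain ⟨i, hi, rfl⟩ := ha
    rw [hS, Finset.mem_filter, Finset.mem_range] at hi
    rw [Finset.mem_Icc]
    have : (i : ℤ) < N := by exact_mod_cast hi.1
    constructor
    · linarith [Int.natCast_nonneg i]
    · linarith
  · -- the C_3[3] property
    intro X hX K hK
    by_contra hcon
    push Not at hcon
    -- membership description
    have hmem : ∀ a : ℤ, a ∈ (S β).image (fun i : ℕ => (i : ℤ) + 1) → 0 ≤ a - 1 ∧ a - 1 < N ∧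
        Algebra.trace (ZMod p) E (β * ((θ ^ (a - 1) : Eˣ) : E)) = 1 := by
      intro a ha
      rw [Finset.mem_image] at ha
      obtain ⟨i, hi, rfl⟩ := ha
      rw [hS, Finset.mem_filter, Finset.mem_range] at hi
      have e : (i : ℤ) + 1 - 1 = i := by ring
      rw [e]
      refine ⟨Int.natCast_nonneg i, by exact_mod_cast hi.1, ?_⟩
      rw [zpow_natCast]
      exact hi.2
    have hzinj : ∀ a b : ℤ, 0 ≤ a → a < N → 0 ≤ b → b < N → θ ^ a = θ ^ b → a = b := by
      intro a b ha ha' hb hb' hab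
      rw [zpow_eq_zpow_iff_modEq, hθord] at hab
      rwa [Int.ModEq, Int.emod_eq_of_lt ha ha', Int.emod_eq_of_lt hb hb'] at hab
    set x := X.equivFinOfCardEq hX with hx
    set k := K.equivFinOfCardEq hK with hk
    set xs : Fin 3 → ℤ := fun i => ((x.symm i : X) : ℤ) with hxs
    set kk : Fin 3 → ℤ := fun i => ((k.symm i : K) : ℤ) with hkk
    have hxs_inj : Function.Injective xs := Subtype.val_injective.comp x.symm.injective
    have hkk_inj : Function.Injective kk := Subtype.val_injective.comp k.symm.injective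
    have hxk : ∀ i j, xs i + kk j ∈ (S β).image (fun i : ℕ => (i : ℤ) + 1) := by
      intro i j
      exact hcon _ (k.symm j).2 _ (x.symm i).2
    have hcone : ∀ e : ℤ, (((θ ^ e : Eˣ) : E) * ((θ ^ e : Eˣ) : E) ^ (p ^ 2)) ^ p =
        ((θ ^ e : Eˣ) : E) * ((θ ^ e : Eˣ) : E) ^ (p ^ 2) := by
      intro e
      have h1 : (θ ^ e) ^ N = 1 := by
        rw [← zpow_natCast, ← zpow_mul, mul_comm, zpow_mul, zpow_natCast, ← hθord, pow_orderOf_eq_one,
          one_zpow]
      have h2 : (((θ ^ e) * (θ ^ e) ^ (p ^ 2)) : Eˣ) ^ p = (θ ^ e) * (θ ^ e) ^ (p ^ 2) := by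
        have h3 : (θ ^ e) * (θ ^ e) ^ (p ^ 2) = (θ ^ e) ^ (p ^ 2 + 1) := by
          rw [pow_succ (θ ^ e) (p ^ 2), mul_comm]
        rw [h3, ← pow_mul]
        have h4 : (p ^ 2 + 1) * p = N + (p ^ 2 + 1) := by
          rw [hN]
          obtain ⟨k, rfl⟩ : ∃ k, p = k + 1 := ⟨p - 1, by omega⟩
          simp only [Nat.add_sub_cancel]
          ring
        rw [h4, pow_add, h1, one_mul]
      have h5 := congrArg (fun u : Eˣ => (u : E)) h2
      simpa only [Units.val_mul, Units.val_pow_eq_pow_val] using h5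
    refine lemD (p := p) (F := E) hfin β
      (fun i => ((θ ^ (xs i + kk 0 - 1) : Eˣ) : E)) (fun j => ((θ ^ (kk j - kk 0) : Eˣ) : E))
      ?_ ?_ (fun i => hcone _) (fun i => hcone _) ?_
    · intro i i' h
      have h' : θ ^ (xs i + kk 0 - 1) = θ ^ (xs i' + kk 0 - 1) := Units.ext h
      obtain ⟨a1, a2, _⟩ := hmem _ (hxk i 0)
      obtain ⟨b1, b2, _⟩ := hmem _ (hxk i' 0)
      have := hzinj _ _ a1 a2 b1 b2 h'
      exact hxs_inj (by linarith)
    · intro j j' h
      have h' : θ ^ (kk j - kk 0) = θ ^ (kk j' - kk 0) := Units.ext h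
      have h'' : θ ^ (xs 0 + kk j - 1) = θ ^ (xs 0 + kk j' - 1) := by
        rw [show xs 0 + kk j - 1 = (kk j - kk 0) + (xs 0 + kk 0 - 1) by ring,
          show xs 0 + kk j' - 1 = (kk j' - kk 0) + (xs 0 + kk 0 - 1) by ring, zpow_add, zpow_add, h']
      obtain ⟨a1, a2, _⟩ := hmem _ (hxk 0 j)
      obtain ⟨b1, b2, _⟩ := hmem _ (hxk 0 j')
      have := hzinj _ _ a1 a2 b1 b2 h''
      exact hkk_inj (by linarith)
    · intro i j
      obtain ⟨_, _, h⟩ := hmem _ (hxk i j)
      rw [← Units.val_mul, ← zpow_add,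
        show xs i + kk 0 - 1 + (kk j - kk 0) = xs i + kk j - 1 by ring]
      exact h
  · rw [Finset.card_image_of_injective]
    · exact hβ
    · intro a b h
      simpa using h

end Pool.Agent.C33
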