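import Pool.Agent.C33.Upper
import Pool.Agent.C33.Construction

set_option autoImplicit false

namespace Pool.Agent.C33

open Finset Filter

/-- cube root of a natural number -/
lemma cube_root (n : ℕ) : (((n : ℝ) ^ (1 / 3 : ℝ)) ^ 3 : ℝ) = n := by
  rw [← Real.rpow_natCast, ← Real.rpow_mul (by positivity)]
  norm_num

lemma sq_root (n : ℕ) : ((n : ℝ) ^ (2 / 3 : ℝ)) = ((n : ℝ) ^ (1 / 3 : ℝ)) ^ 2 := by
  rw [← Real.rpow_natCast, ← Real.rpow_mul (by positivity)]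
  norm_num

/-- upper bound: eventually `F n ≤ (1 + ε) n^{2/3}` -/
theorem upper_asymp {ε : ℝ} (hε : 0 < ε) (hε1 : ε ≤ 1) :
    ∀ᶠ n : ℕ in atTop, (F n : ℝ) ≤ (1 + ε) * (n : ℝ) ^ (2 / 3 : ℝ) := by
  set δ : ℝ := ε / 16 with hδ
  have hδpos : 0 < δ := by positivity
  set C : ℝ := 2 * (1 + 2 * δ) ^ 3 * (1 / δ + 1) with hC
  have hCpos : 0 < C := by positivity
  have htend : Tendsto (fun n : ℕ => (n : ℝ) ^ (1 / 3 : ℝ)) atTop atTop :=
    (tendsto_rpow_atTop (by norm_num)).comp tendsto_natCast_atTop_atTop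
  filter_upwards [htend.eventually_ge_atTop (2 * (C + 1) / ε + 1),
    (tendsto_natCast_atTop_atTop (R := ℝ)).eventually_ge_atTop (1 / δ),
    eventually_ge_atTop 1] with n hx hn hn1
  rw [sq_root]
  set x : ℝ := (n : ℝ) ^ (1 / 3 : ℝ) with hxdef
  have hx3 : x ^ 3 = n := cube_root n
  have hx1 : 1 ≤ x := by
    have : 0 ≤ 2 * (C + 1) / ε := by positivity
    linarith
  have hxpos : 0 < x := by linarith
  have hnr : (1 : ℝ) ≤ n := by exact_mod_cast hn1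
  by_contra hcon
  push Not at hcon
  obtain ⟨A, hA, hAC, hAcard⟩ := F_attained n
  rw [← hAcard] at hcon
  set w : ℕ := ⌈δ * n⌉₊ with hw
  have hwpos : 0 < w := Nat.ceil_pos.2 (by positivity)
  have hw1 : δ * n ≤ w := Nat.le_ceil _
  have hw2 : (w : ℝ) ≤ δ * n + 1 := (Nat.ceil_lt_add_one (by positivity)).le
  set m : ℝ := ((n : ℝ) + w) ^ (1 / 3 : ℝ) with hm
  have hmpos : 0 < m := by positivity
  have hm3 : m ^ 3 = (n : ℝ) + w := by
    rw [hm, ← Real.rpow_natCast, ← Real.rpow_mul (by positivity)]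
    norm_num
  have hAr : (0 : ℝ) < A.card := lt_trans (by positivity) hcon
  have hApos : 0 < A.card := by exact_mod_cast hAr
  have hwin := window hwpos hA hAC hApos hmpos hm3
  have hm3le : m ^ 3 ≤ ((1 + 2 * δ) * x) ^ 3 := by
    have h1 : m ^ 3 ≤ (1 + 2 * δ) * n := by
      rw [hm3]
      have : 1 ≤ δ * n := by
        rw [div_le_iff₀ hδpos] at hn
        linarith
      linarith
    calc m ^ 3 ≤ (1 + 2 * δ) * n := h1
      _ ≤ (1 + 2 * δ) ^ 3 * n := by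
        apply mul_le_mul_of_nonneg_right _ (by linarith)
        have : (1 : ℝ) ≤ 1 + 2 * δ := by linarith
        calc (1 + 2 * δ) = (1 + 2 * δ) ^ 1 := (pow_one _).symm
          _ ≤ (1 + 2 * δ) ^ 3 := pow_le_pow_right₀ this (by norm_num)
      _ = ((1 + 2 * δ) * x) ^ 3 := by rw [mul_pow, hx3]
  have hmle : m ≤ (1 + 2 * δ) * x := le_of_pow_le_pow_left₀ (by norm_num) (by positivity) hm3le
  have hm2le : m ^ 2 ≤ (1 + ε / 2) * x ^ 2 := by
    calc m ^ 2 ≤ ((1 + 2 * δ) * x) ^ 2 := pow_le_pow_left₀ hmpos.le hmle 2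
      _ = (1 + 2 * δ) ^ 2 * x ^ 2 := by ring
      _ ≤ (1 + ε / 2) * x ^ 2 := by
        apply mul_le_mul_of_nonneg_right _ (by positivity)
        rw [hδ]
        nlinarith
  have hnw : (n : ℝ) / w + 1 ≤ 1 / δ + 1 := by
    have hwr : (0 : ℝ) < w := by exact_mod_cast hwpos
    have : (n : ℝ) / w ≤ 1 / δ := by
      rw [div_le_div_iff₀ hwr hδpos]
      linarith
    linarith
  have hlast : 2 * m ^ 3 * ((n : ℝ) / w + 1) / A.card ≤ C * x := by
    rw [div_le_iff₀ hAr]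
    have h1 : 2 * m ^ 3 * ((n : ℝ) / w + 1) ≤ 2 * ((1 + 2 * δ) * x) ^ 3 * (1 / δ + 1) := by
      apply mul_le_mul _ hnw (by positivity) (by positivity)
      linarith
    have h2 : 2 * ((1 + 2 * δ) * x) ^ 3 * (1 / δ + 1) = C * x * x ^ 2 := by rw [hC]; ring
    have h3 : x ^ 2 ≤ A.card := by nlinarith [sq_nonneg x]
    calc 2 * m ^ 3 * ((n : ℝ) / w + 1) ≤ C * x * x ^ 2 := by rw [← h2]; exact h1
      _ ≤ C * x * A.card := mul_le_mul_of_nonneg_left h3 (by positivity)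
  have hfin : (1 + ε) * x ^ 2 < 1 + (1 + ε / 2) * x ^ 2 + C * x := by linarith
  have hcon2 : ε / 2 * x ^ 2 < (C + 1) * x := by nlinarith
  have hcon3 : ε / 2 * x < C + 1 := by
    have : ε / 2 * x * x < (C + 1) * x := by nlinarith
    exact lt_of_mul_lt_mul_right this hxpos.le
  have hx' : 2 * (C + 1) / ε < x := by linarith
  rw [div_lt_iff₀ hε] at hx'
  linarith

/-- lower bound from a prime gap hypothesis -/
theorem lower_asymp
    (hgap : ∀ ε : ℝ, 0 < ε → ∃ x₀ : ℝ, ∀ x ≥ x₀, ∃ p : ℕ, p.Prime ∧ (1 - ε) * x < p ∧ (p : ℝ) ≤ x)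
    {ε : ℝ} (hε : 0 < ε) (hε1 : ε ≤ 1) :
    ∀ᶠ n : ℕ in atTop, (1 - ε) * (n : ℝ) ^ (2 / 3 : ℝ) ≤ (F n : ℝ) := by
  obtain ⟨x₀, hx₀⟩ := hgap (ε / 4) (by positivity)
  have htend : Tendsto (fun n : ℕ => (n : ℝ) ^ (1 / 3 : ℝ)) atTop atTop :=
    (tendsto_rpow_atTop (by norm_num)).comp tendsto_natCast_atTop_atTop
  filter_upwards [htend.eventually_ge_atTop (max x₀ (2 / ε))] with n hx
  rw [sq_root]
  set x : ℝ := (n : ℝ) ^ (1 / 3 : ℝ) with hxdef
  have hx3 : x ^ 3 = n := cube_root n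
  have hxx₀ : x₀ ≤ x := (le_max_left _ _).trans hx
  have hxε : 2 / ε ≤ x := (le_max_right _ _).trans hx
  have hxpos : 0 < x := lt_of_lt_of_le (by positivity) hxε
  obtain ⟨p, hp, hp1, hp2⟩ := hx₀ x hxx₀
  obtain ⟨A, hA, hAC, hAcard⟩ := construction p hp
  have hNn : (p ^ 2 + 1) * (p - 1) ≤ n := by
    have h1 : (p ^ 2 + 1) * (p - 1) ≤ p ^ 3 := by
      obtain ⟨k, rfl⟩ : ∃ k, p = k + 1 := ⟨p - 1, by have := hp.pos; omega⟩
      simp only [Nat.add_sub_cancel]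
      nlinarith [Nat.zero_le k, Nat.zero_le (k ^ 2)]
    have h2 : p ^ 3 ≤ n := by
      have : (p : ℝ) ^ 3 ≤ n := by
        rw [← hx3]
        exact pow_le_pow_left₀ (by positivity) hp2 3
      exact_mod_cast this
    exact h1.trans h2
  have hle : A.card ≤ F n := by
    apply le_F _ hAC
    refine hA.trans (Finset.Icc_subset_Icc le_rfl ?_)
    exact_mod_cast hNn
  have hpr : (1 : ℝ) < p := by exact_mod_cast hp.one_lt
  have hcardr : ((p : ℝ) ^ 2 + 1) * (p - 1) ≤ p * A.card := by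
    have : (((p ^ 2 + 1) * (p - 1) : ℕ) : ℝ) ≤ ((p * A.card : ℕ) : ℝ) := by exact_mod_cast hAcard
    push_cast [Nat.cast_sub hp.one_lt.le] at this
    exact this
  have hA2 : (p : ℝ) ^ 2 - p ≤ A.card := by
    have h1 : (p : ℝ) * ((p : ℝ) ^ 2 - p) ≤ p * A.card := by nlinarith
    exact le_of_mul_le_mul_left h1 (by linarith)
  have hFr : (A.card : ℝ) ≤ F n := by exact_mod_cast hle
  -- numerical estimate
  have hq1 : (1 - ε / 4) * x ≤ p := hp1.le
  have hq0 : 0 ≤ (1 - ε / 4) * x := by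
    apply mul_nonneg _ hxpos.le
    linarith
  have h2 : ((1 - ε / 4) * x) ^ 2 ≤ (p : ℝ) ^ 2 := pow_le_pow_left₀ hq0 hq1 2
  have h3 : (p : ℝ) ≤ ε / 2 * x ^ 2 := by
    have : 1 ≤ ε / 2 * x := by
      rw [div_le_iff₀ hε] at hxε
      linarith
    nlinarith
  have h4 : (1 - ε / 2) * x ^ 2 ≤ ((1 - ε / 4) * x) ^ 2 := by
    nlinarith [sq_nonneg (ε * x)]
  linarith

/-- The asymptotic formula, from the prime gap hypothesis. -/
theorem tendsto_of_gap
    (hgap : ∀ ε : ℝ, 0 < ε → ∃ x₀ : ℝ, ∀ x ≥ x₀, ∃ p : ℕ, p.Prime ∧ (1 - ε) * x < p ∧ (p : ℝ) ≤ x) :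
    Tendsto (fun n : ℕ => (F n : ℝ) / (n : ℝ) ^ (2 / 3 : ℝ)) atTop (nhds 1) := by
  rw [Metric.tendsto_nhds]
  intro e he
  set ε : ℝ := min (e / 2) 1 with hε
  have hεpos : 0 < ε := lt_min (by positivity) one_pos
  have hε1 : ε ≤ 1 := min_le_right _ _
  have hεe : ε < e := lt_of_le_of_lt (min_le_left _ _) (by linarith)
  filter_upwards [upper_asymp hεpos hε1, lower_asymp hgap hεpos hε1, eventually_gt_atTop 0]
    with n h1 h2 hn
  have hpos : (0 : ℝ) < (n : ℝ) ^ (2 / 3 : ℝ) := by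
    apply Real.rpow_pos_of_pos
    exact_mod_cast hn
  rw [Real.dist_eq, abs_lt]
  constructor
  · have : 1 - ε ≤ (F n : ℝ) / (n : ℝ) ^ (2 / 3 : ℝ) := by
      rw [le_div_iff₀ hpos]; exact h2
    linarith
  · have : (F n : ℝ) / (n : ℝ) ^ (2 / 3 : ℝ) ≤ 1 + ε := by
      rw [div_le_iff₀ hpos]; exact h1
    linarith

end Pool.Agent.C33
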