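import Mathlib

set_option autoImplicit false

namespace Pool.Agent.C33

/-- `A` is a `C_h[g]`-set of integers: no `h`-element set has `g` distinct translates in `A`. -/
def IsC (h g : ℕ) (A : Finset ℤ) : Prop :=
  ∀ X : Finset ℤ, X.card = h → ∀ K : Finset ℤ, K.card = g → ∃ k ∈ K, ¬ ∀ x ∈ X, x + k ∈ A

/-- `F n` is the maximum size of a `C_3[3]`-set contained in `{1, ..., n}`. -/
noncomputable def F (n : ℕ) : ℕ :=
  sSup {m : ℕ | ∃ A : Finset ℤ, A ⊆ Finset.Icc 1 (n : ℤ) ∧ IsC 3 3 A ∧ A.card = m}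

lemma F_bdd (n : ℕ) :
    BddAbove {m : ℕ | ∃ A : Finset ℤ, A ⊆ Finset.Icc 1 (n : ℤ) ∧ IsC 3 3 A ∧ A.card = m} := by
  refine ⟨n, ?_⟩
  rintro m ⟨A, hA, _, rfl⟩
  have := Finset.card_le_card hA
  simpa using this

lemma F_nonempty (n : ℕ) :
    {m : ℕ | ∃ A : Finset ℤ, A ⊆ Finset.Icc 1 (n : ℤ) ∧ IsC 3 3 A ∧ A.card = m}.Nonempty := by
  refine ⟨0, ∅, by simp, ?_, by simp⟩
  intro X hX K hK
  obtain ⟨k, hk⟩ : K.Nonempty := by rw [← Finset.card_pos]; omega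
  obtain ⟨x, hx⟩ : X.Nonempty := by rw [← Finset.card_pos]; omega
  exact ⟨k, hk, fun h => by simpa using h x hx⟩

lemma le_F {n : ℕ} {A : Finset ℤ} (hA : A ⊆ Finset.Icc 1 (n : ℤ)) (hC : IsC 3 3 A) :
    A.card ≤ F n := le_csSup (F_bdd n) ⟨A, hA, hC, rfl⟩

lemma F_attained (n : ℕ) :
    ∃ A : Finset ℤ, A ⊆ Finset.Icc 1 (n : ℤ) ∧ IsC 3 3 A ∧ A.card = F n :=
  Nat.sSup_mem (F_nonempty n) (F_bdd n)

end Pool.Agent.C33
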