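import Pool.Agent.C33.Defs

set_option autoImplicit false

namespace Pool.Agent.C33

open Finset

/-- tangent-line bound for the binomial coefficient -/
lemma choose_three_ge (r : ℕ) {l : ℝ} (hl : 0 ≤ l) :
    3 * l ^ 2 * ((r : ℝ) - 2) - 2 * l ^ 3 ≤ 6 * (r.choose 3 : ℝ) := by
  rcases Nat.lt_or_ge r 2 with h | h
  · have h1 : r.choose 3 = 0 := Nat.choose_eq_zero_of_lt (by omega)
    rw [h1]
    have h2 : (r : ℝ) ≤ 2 := by exact_mod_cast h.le
    have h3 : 0 ≤ l ^ 2 := by positivity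
    have h4 : 0 ≤ l ^ 3 := by positivity
    push_cast
    nlinarith
  · obtain ⟨s, rfl⟩ : ∃ s, r = s + 2 := ⟨r - 2, by omega⟩
    have h1 : 6 * (s + 2).choose 3 = (s + 2) * (s + 1) * s := by
      have := Nat.descFactorial_eq_factorial_mul_choose (s + 2) 3
      have h6 : Nat.factorial 3 = 6 := rfl
      rw [h6] at this
      rw [← this]
      simp [Nat.descFactorial]
      ring
    have h2 : (6 : ℝ) * ((s + 2).choose 3 : ℝ) = ((s : ℝ) + 2) * (s + 1) * s := by exact_mod_cast h1
    rw [h2]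
    push_cast
    have hs : (0 : ℝ) ≤ s := by positivity
    have h3 : 0 ≤ ((s : ℝ) - l) ^ 2 * (s + 2 * l) := by positivity
    nlinarith [mul_nonneg hs hs]

lemma choose_three_le (r : ℕ) : 6 * (r.choose 3 : ℝ) ≤ (r : ℝ) ^ 3 := by
  have := Nat.choose_le_pow_div (α := ℝ) 3 r
  have h6 : ((Nat.factorial 3 : ℕ) : ℝ) = 6 := by norm_num [Nat.factorial]
  rw [h6] at this
  rw [le_div_iff₀ (by norm_num)] at this
  linarith

/-- triples in a part `W` have at most one nonzero translate in `A`. -/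
lemma sum_choose_le {A W : Finset ℤ} (hC : IsC 3 3 A) (hW : W ⊆ A) (D : Finset ℤ) (hD : 0 ∉ D) :
    ∑ d ∈ D, (W.filter (fun a => a + d ∈ A)).card.choose 3 ≤ W.card.choose 3 := by
  classical
  have h1 : ∀ d ∈ D, (W.filter (fun a => a + d ∈ A)).card.choose 3 =
      ((W.filter (fun a => a + d ∈ A)).powersetCard 3).card := by
    intro d _; rw [Finset.card_powersetCard]
  rw [Finset.sum_congr rfl h1, ← Finset.card_powersetCard 3 W, ← Finset.card_biUnion]
  · apply Finset.card_le_card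
    intro T hT
    rw [Finset.mem_biUnion] at hT
    obtain ⟨d, _, hT⟩ := hT
    rw [Finset.mem_powersetCard] at hT ⊢
    exact ⟨hT.1.trans (Finset.filter_subset _ _), hT.2⟩
  · intro d hd d' hd' hne
    rw [Function.onFun, Finset.disjoint_left]
    intro T hT hT'
    rw [Finset.mem_powersetCard] at hT hT'
    have hd0 : d ≠ 0 := fun h => hD (h ▸ hd)
    have hd0' : d' ≠ 0 := fun h => hD (h ▸ hd')
    obtain ⟨k, hk, hnot⟩ := hC T hT.2 {0, d, d'} (by
      rw [Finset.card_insert_of_notMem, Finset.card_insert_of_notMem, Finset.card_singleton]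
      · simpa using hne
      · simp only [Finset.mem_insert, Finset.mem_singleton, not_or]
        exact ⟨hd0.symm, hd0'.symm⟩)
    apply hnot
    intro x hx
    simp only [Finset.mem_insert, Finset.mem_singleton] at hk
    rcases hk with rfl | rfl | rfl
    · rw [add_zero]
      exact hW ((Finset.filter_subset _ _) (hT.1 hx))
    · exact (Finset.mem_filter.1 (hT.1 hx)).2
    · exact (Finset.mem_filter.1 (hT'.1 hx)).2

/-- The core inequality for a part `W` of `A` inside a short interval. -/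
lemma core {n w : ℕ} {A W : Finset ℤ} (hA : A ⊆ Finset.Icc 1 (n : ℤ)) (hC : IsC 3 3 A)
    (hW : W ⊆ A) (s : ℤ) (hWs : ∀ a ∈ W, s ≤ a ∧ a < s + w) (hWpos : 0 < W.card)
    {m : ℝ} (hm : 0 < m) (hm3 : m ^ 3 = (n : ℝ) + w) :
    (A.card : ℝ) ≤ 1 + m ^ 2 + 2 * m ^ 3 / W.card := by
  classical
  set D : Finset ℤ := (Finset.Icc (2 - s - w) (n - s)).erase 0 with hD
  have hApos : 0 < A.card := lt_of_lt_of_le hWpos (Finset.card_le_card hW)
  have hDcard : (D.card : ℝ) ≤ m ^ 3 := by
    rw [hm3]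
    have h1 : D.card ≤ (Finset.Icc (2 - s - (w : ℤ)) (n - s)).card := Finset.card_erase_le
    rw [Int.card_Icc] at h1
    have h2 : ((n : ℤ) - s + 1 - (2 - s - w)).toNat ≤ n + w := by omega
    have h3 : D.card ≤ n + w := h1.trans h2
    exact_mod_cast h3
  have hsum : ∑ d ∈ D, (W.filter (fun a => a + d ∈ A)).card = W.card * (A.card - 1) := by
    have h1 : ∀ d ∈ D, (W.filter (fun a => a + d ∈ A)).card =
        ∑ a ∈ W, if a + d ∈ A then 1 else 0 := by
      intro d _
      rw [← Finset.card_filter]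
    rw [Finset.sum_congr rfl h1, Finset.sum_comm]
    rw [Finset.sum_congr rfl (g := fun _ => A.card - 1)]
    · rw [Finset.sum_const, smul_eq_mul]
    · intro a ha
      rw [← Finset.card_filter]
      have haA := hW ha
      rw [← Finset.card_erase_of_mem haA]
      apply Finset.card_bij (fun d _ => a + d)
      · intro d hd
        rw [Finset.mem_filter, hD, Finset.mem_erase] at hd
        rw [Finset.mem_erase]
        exact ⟨fun h => hd.1.1 (by linarith), hd.2⟩
      · intro d _ d' _ h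
        linarith
      · intro b hb
        rw [Finset.mem_erase] at hb
        refine ⟨b - a, ?_, by ring⟩
        rw [Finset.mem_filter, hD, Finset.mem_erase, Finset.mem_Icc]
        have h2 := Finset.mem_Icc.1 (hA hb.2)
        have h3 := hWs a ha
        refine ⟨⟨fun h => hb.1 (by linarith), ?_, ?_⟩, ?_⟩
        · linarith [h2.1, h3.2]
        · linarith [h2.2, h3.1]
        · rw [show a + (b - a) = b by ring]; exact hb.2
  set α : ℝ := (W.card : ℝ) with hα
  have hαpos : 0 < α := by rw [hα]; exact_mod_cast hWpos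
  set l : ℝ := α / m with hl
  have hlpos : 0 < l := by positivity
  have hml : l * m = α := by rw [hl]; field_simp
  have hmain := sum_choose_le hC hW D (by rw [hD]; exact Finset.notMem_erase 0 _)
  have h6 : ∑ d ∈ D, (3 * l ^ 2 * (((W.filter (fun a => a + d ∈ A)).card : ℝ) - 2) - 2 * l ^ 3) ≤
      α ^ 3 := by
    calc ∑ d ∈ D, (3 * l ^ 2 * (((W.filter (fun a => a + d ∈ A)).card : ℝ) - 2) - 2 * l ^ 3)
        ≤ ∑ d ∈ D, 6 * ((W.filter (fun a => a + d ∈ A)).card.choose 3 : ℝ) :=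
          Finset.sum_le_sum fun d _ => choose_three_ge _ hlpos.le
      _ = 6 * ((∑ d ∈ D, (W.filter (fun a => a + d ∈ A)).card.choose 3 : ℕ) : ℝ) := by
          rw [← Finset.mul_sum]; push_cast; rfl
      _ ≤ 6 * (W.card.choose 3 : ℝ) := by
          have : ((∑ d ∈ D, (W.filter (fun a => a + d ∈ A)).card.choose 3 : ℕ) : ℝ) ≤
            (W.card.choose 3 : ℝ) := by exact_mod_cast hmain
          linarith
      _ ≤ α ^ 3 := choose_three_le _
  rw [Finset.sum_sub_distrib, Finset.sum_const, ← Finset.mul_sum, Finset.sum_sub_distrib,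
    Finset.sum_const, nsmul_eq_mul, nsmul_eq_mul] at h6
  have hsum' : ∑ d ∈ D, ((W.filter (fun a => a + d ∈ A)).card : ℝ) = α * ((A.card : ℝ) - 1) := by
    have : ((∑ d ∈ D, (W.filter (fun a => a + d ∈ A)).card : ℕ) : ℝ) =
        ((W.card * (A.card - 1) : ℕ) : ℝ) := by rw [hsum]
    push_cast [Nat.cast_sub hApos] at this
    exact this
  rw [hsum'] at h6
  -- replace the cardinality of D by m^3
  have h7 : 3 * l ^ 2 * (α * ((A.card : ℝ) - 1) - m ^ 3 * 2) - m ^ 3 * (2 * l ^ 3) ≤ α ^ 3 := by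
    have h8 : 0 ≤ l ^ 2 := by positivity
    have h9 : 0 ≤ l ^ 3 := by positivity
    nlinarith [mul_le_mul_of_nonneg_right hDcard h8, mul_le_mul_of_nonneg_right hDcard h9]
  have h10 : m ^ 3 * (2 * l ^ 3) = 2 * α ^ 3 := by rw [← hml]; ring
  rw [h10] at h7
  -- multiply by m^2 / (3 α^2)
  have h11 : l ^ 2 * (α * ((A.card : ℝ) - 1) - m ^ 3 * 2) ≤ α ^ 3 := by linarith
  have h12 : l ^ 2 * (α * ((A.card : ℝ) - 1) - m ^ 3 * 2) ≤ l ^ 2 * (m ^ 2 * α) := by
    calc l ^ 2 * (α * ((A.card : ℝ) - 1) - m ^ 3 * 2) ≤ α ^ 3 := h11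
      _ = l ^ 2 * (m ^ 2 * α) := by rw [← hml]; ring
  have h13 : α * ((A.card : ℝ) - 1) - m ^ 3 * 2 ≤ m ^ 2 * α :=
    le_of_mul_le_mul_left h12 (by positivity)
  have h14 : 2 * m ^ 3 / α * α = 2 * m ^ 3 := by field_simp
  have h15 : α * (A.card : ℝ) ≤ α * (1 + m ^ 2 + 2 * m ^ 3 / α) := by
    calc α * (A.card : ℝ) ≤ α + m ^ 2 * α + 2 * m ^ 3 := by linarith
      _ = α + m ^ 2 * α + 2 * m ^ 3 / α * α := by rw [h14]
      _ = _ := by ring
  exact le_of_mul_le_mul_left h15 hαpos

/-- For every window length `w ≥ 1`. -/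
lemma window {n w : ℕ} (hw : 0 < w) {A : Finset ℤ} (hA : A ⊆ Finset.Icc 1 (n : ℤ))
    (hC : IsC 3 3 A) (hApos : 0 < A.card) {m : ℝ} (hm : 0 < m) (hm3 : m ^ 3 = (n : ℝ) + w) :
    (A.card : ℝ) ≤ 1 + m ^ 2 + 2 * m ^ 3 * ((n : ℝ) / w + 1) / A.card := by
  classical
  set t : Finset ℤ := Finset.Icc 0 ((n / w : ℕ) : ℤ) with ht
  have htcard : t.card = n / w + 1 := by
    rw [ht, Int.card_Icc]
    generalize n / w = c
    omega
  have hmaps : ∀ a ∈ A, (fun a : ℤ => (a - 1) / (w : ℤ)) a ∈ t := by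
    intro a ha
    have h1 := Finset.mem_Icc.1 (hA ha)
    rw [ht, Finset.mem_Icc]
    have hw' : (0 : ℤ) < w := by exact_mod_cast hw
    constructor
    · exact Int.ediv_nonneg (by linarith) hw'.le
    · push_cast
      exact Int.ediv_le_ediv hw' (by linarith)
  have htne : t.Nonempty := by
    rw [← Finset.card_pos, htcard]
    exact Nat.succ_pos _
  obtain ⟨j, hj, hle⟩ := Finset.exists_le_card_fiber_of_nsmul_le_card_of_maps_to
    (b := (A.card : ℝ) / (t.card : ℝ)) hmaps htne (by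
      rw [nsmul_eq_mul]
      have : (t.card : ℝ) ≠ 0 := by
        have := Finset.card_pos.2 htne
        positivity
      field_simp
      exact le_rfl)
  set W := A.filter (fun a : ℤ => (a - 1) / (w : ℤ) = j) with hW
  have htpos : (0 : ℝ) < t.card := by exact_mod_cast Finset.card_pos.2 htne
  have hAr : (0 : ℝ) < A.card := by exact_mod_cast hApos
  have hWr : (0 : ℝ) < W.card := lt_of_lt_of_le (by positivity) hle
  have hWpos : 0 < W.card := by exact_mod_cast hWr
  have hcore := core hA hC (Finset.filter_subset _ _ : W ⊆ A) (j * w + 1) (by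
    intro a ha
    rw [Finset.mem_filter] at ha
    have hw' : (0 : ℤ) < w := by exact_mod_cast hw
    have h1 := Int.mul_ediv_add_emod (a - 1) w
    have h2 := Int.emod_nonneg (a - 1) hw'.ne'
    have h3 := Int.emod_lt_of_pos (a - 1) hw'
    rw [ha.2] at h1
    constructor
    · linarith [mul_comm (w : ℤ) j]
    · linarith [mul_comm (w : ℤ) j]) hWpos hm hm3
  refine hcore.trans ?_
  have h4 : 2 * m ^ 3 / W.card ≤ 2 * m ^ 3 * ((n : ℝ) / w + 1) / A.card := by
    rw [div_le_div_iff₀ hWr hAr]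
    have h5 : (A.card : ℝ) ≤ W.card * t.card := by
      rw [div_le_iff₀ htpos] at hle
      exact hle
    have h6 : (t.card : ℝ) ≤ (n : ℝ) / w + 1 := by
      rw [htcard]
      push_cast
      have : ((n / w : ℕ) : ℝ) ≤ (n : ℝ) / w := Nat.cast_div_le
      linarith
    have h7 : (A.card : ℝ) ≤ ((n : ℝ) / w + 1) * W.card := by
      calc (A.card : ℝ) ≤ W.card * t.card := h5
        _ ≤ W.card * ((n : ℝ) / w + 1) := mul_le_mul_of_nonneg_left h6 hWr.le
        _ = _ := by ring
    have h8 : 0 ≤ 2 * m ^ 3 := by positivity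
    calc 2 * m ^ 3 * (A.card : ℝ) ≤ 2 * m ^ 3 * (((n : ℝ) / w + 1) * W.card) :=
          mul_le_mul_of_nonneg_left h7 h8
      _ = _ := by ring
  linarith

end Pool.Agent.C33
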